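import Pool.Agent.R490.Tq

set_option autoImplicit false

/-!
# Tuples with a prime smallest member and rough other members: counts and the law of the next ones
-/

namespace Pool.Agent.Results.MP_485179_nt.LawAfterPrimes

open Finset Filter

/-- For every prime `p` the set `H` misses a residue class modulo `p`: some `m` makes all `m + h`, `h ∈ H`, prime
to `p`. -/
def Admissible (H : Finset ℕ) : Prop := ∀ p : ℕ, p.Prime → ∃ m : ℕ, ∀ h ∈ H, ¬ p ∣ m + h

/-- No `q m + a + h`, `h ∈ H`, has a prime factor `≤ y`. -/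
def Rough (H : Finset ℕ) (q a y m : ℕ) : Prop := ∀ p : ℕ, p.Prime → p ≤ y → ∀ h ∈ H, ¬ p ∣ q * m + a + h

/-- `0` if `p ∣ q`, otherwise the number of the residue classes modulo `p` which meet `H`. -/
def nu (H : Finset ℕ) (q p : ℕ) : ℕ := if p ∣ q then 0 else (H.image (fun h => h % p)).card

/-- The product of `1 - nu(p) / p` over the primes `p ≤ y`, the density of the `m` with `Rough H q a y m`. -/
noncomputable def V (H : Finset ℕ) (q y : ℕ) : ℝ :=
  ∏ p ∈ (Finset.range (y + 1)).filter Nat.Prime, (1 - (nu H q p : ℝ) / p)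

/-- The product of `(1 - nu(p) / p) / (1 - 1 / p)` over the primes `p ≤ y`. -/
noncomputable def W (H : Finset ℕ) (q y : ℕ) : ℝ :=
  ∏ p ∈ (Finset.range (y + 1)).filter Nat.Prime, (1 - (nu H q p : ℝ) / p) / (1 - 1 / (p : ℝ))

open Classical in
/-- The `m` in `(u, u + Y]` with `Rough H q a y m` for which `q m + a` is PRIME. -/
noncomputable def P (H : Finset ℕ) (q a y u Y : ℕ) : Finset ℕ :=
  (Ioc u (u + Y)).filter (fun m => (q * m + a).Prime ∧ Rough H q a y m)

open Classical in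
/-- The number of the `m` in `(n, n + T]` with `Rough H q a y m`. -/
noncomputable def Next (H : Finset ℕ) (q a y T n : ℕ) : ℕ := ((Ioc n (n + T)).filter (fun m => Rough H q a y m)).card

open Classical in
/-- **The law after primes, uniformly.** Let `q` be squarefree, `A`, `0 < θ`, `0 < δ ≤ 1`, `x0` and `0 < ε ≤ 1`.
There is `r0` such that for every `r ≥ r0` and all large `N`, with `y = N ^ (1 / r)`: for ALL
admissible sets `H` of `k` shifts up to `N ^ A` which contain `0` (in the question up to a power of `log X`) such that `q`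
divides no difference of two different shifts, all `a ≤ q` with `q` prime to all `a + h`, and all windows
`(u, u + Y]` with `u + Y ≤ X`, `δ X ≤ Y`, `X ≥ N ^ θ`: the `m` in the window for which `q m + a` is PRIME and no
`q m + a + h` has a prime factor `≤ y` number `Y W / log X`, up to the factor `1 + ε`, and for exactly the
expected proportions of them, `e ^ (- T V) (T V) ^ j / j!`, there are `j` integers `m'` in `(m, m + T]` for which
no `q m' + a + h` has a prime factor `≤ y`, as for a Poisson process, `T V ≤ x0`. -/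
theorem result (q : ℕ) (k A : ℕ) (hk : 2 ≤ k) (hq : Squarefree q) (θ δ : ℝ) (hθ : 0 < θ) (hδ : 0 < δ) (hδ1 : δ ≤ 1)
    (x0 ε : ℝ) (hε : 0 < ε) (hε1 : ε ≤ 1) :
    ∃ r0 : ℕ, 2 ≤ r0 ∧ ∀ r : ℕ, r0 ≤ r → ∀ᶠ N : ℕ in atTop, ∀ y : ℕ, y = ⌊(N : ℝ) ^ (1 / (r : ℝ))⌋₊ →
      ∀ H : Finset ℕ, H.card = k → 0 ∈ H → (∀ h ∈ H, h ≤ N ^ A) →
      Admissible H →
      ∀ a : ℕ, a ≤ q → (∀ h ∈ H, Nat.Coprime q (a + h)) →
      (∀ h ∈ H, ∀ h' ∈ H, h' < h → ¬ q ∣ h - h') →
      0 < W H q y ∧ ∀ X : ℕ, (N : ℝ) ^ θ ≤ X → ∀ u Y : ℕ, δ * X ≤ Y → u + Y ≤ X →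
      |((P H q a y u Y).card : ℝ) * Real.log X - Y * W H q y| ≤ ε * (Y * W H q y) ∧
      ∀ T : ℕ, T * V H q y ≤ x0 → ∀ J : Finset ℕ,
      |(((P H q a y u Y).filter (fun n => Next H q a y T n ∈ J)).card : ℝ) -
          (P H q a y u Y).card * ∑ j ∈ J, Real.exp (-(T * V H q y)) * (T * V H q y) ^ j / j.factorial| ≤
        ε * (P H q a y u Y).card := by
  obtain ⟨r0, hr0, h0⟩ := Pool.Agent.R490.Tq.tprime q k A hq hk θ δ hθ hδ hδ1 x0 ε hε hε1
  refine ⟨r0, hr0, fun r hr => ?_⟩
  filter_upwards [h0 r hr] with N hN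
  intro y hy H hH h0 hHN hadm
  exact hN y hy H hH h0 hHN hadm

end Pool.Agent.Results.MP_485179_nt.LawAfterPrimes
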