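import Pool.Agent.R498.MP.ULin

set_option autoImplicit false

/-!
# Runs of primes `p` with almost prime `p + d_1, ..., p + d_k`, uniformly in the shifts
-/

namespace Pool.Agent.Results.MP_485179_nt.PrimeStrings

open Filter

/-- `n` has at most `r` prime factors, counted with multiplicity, all of them at least `w`. -/
def AlmostPrime (r : ℕ) (w : ℝ) (n : ℕ) : Prop :=
  n.primeFactorsList.length ≤ r ∧ ∀ q : ℕ, q.Prime → q ∣ n → w ≤ q

/-- **Runs of primes `p` with almost prime `p + d_1, ..., p + d_k`, uniformly in the shifts.** Let `q` be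
squarefree. For all `k` and `m` there are `K`, `B` and `δ > 0` such that for every `A` there is an `r` such that,
for every finite set `S` of at least `K` nonnegative integers, the following holds for all large `N`, all
`d_1, ..., d_k ≤ N ^ A` for which `{0, d_1, ..., d_k}` is admissible, and all `c` for which
`c (c + d_1) ... (c + d_k)` is coprime to `q` (for instance `q = 1`). There are a subset `H` of `S` with at
least `m` elements and at least `N / (log N) ^ B` numbers `x` with `N < x ≤ x + max S ≤ 2 N` such that for all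
`s ∈ H` the number `p = x + s` is a prime `≡ c` modulo `q` and all `p + d_i` have at most `r` prime factors,
all of them at least `N ^ δ`; and no other number `x + y`, `y ≤ max S`, is prime, except possibly if
`y = s + d_i` for some `s ∈ S` and some `i`. -/
theorem result (k q : ℕ) (hq : Squarefree q) (m : ℕ) : ∃ (K B : ℕ) (δ : ℝ), 0 < δ ∧
    ∀ A : ℕ, ∃ r : ℕ, ∀ S : Finset ℕ, K ≤ S.card → ∀ᶠ N : ℕ in atTop, ∀ d : Fin k → ℕ,
      (∀ i, d i ≤ N ^ A) → (∀ p : ℕ, p.Prime → ∃ n : ℕ, ¬ p ∣ n * ∏ i, (n + d i)) →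
      ∀ c : ℕ, Nat.Coprime (c * ∏ i, (c + d i)) q →
      ∃ H ⊆ S, m ≤ H.card ∧ ∃ T : Finset ℕ, (N : ℝ) ≤ Real.log N ^ B * T.card ∧
        ∀ x ∈ T, N < x ∧ x + S.sup id ≤ 2 * N ∧
          (∀ s ∈ H, (x + s).Prime ∧ x + s ≡ c [MOD q] ∧
            ∀ i, AlmostPrime r ((N : ℝ) ^ δ) (x + s + d i)) ∧
          ∀ y ≤ S.sup id, y ∉ H → (∀ s ∈ S, ∀ i, y ≠ s + d i) → ¬ (x + y).Prime := by
  obtain ⟨K, B, δ, hδ, hmain⟩ := Pool.Agent.R498.MP.natlinU k q hq m
  refine ⟨K, B, δ, hδ, fun A => ?_⟩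
  obtain ⟨r, hr⟩ := hmain A
  refine ⟨r, fun S hS => ?_⟩
  filter_upwards [hr S hS, eventually_ge_atTop 1] with N hN hN1
  intro d hd hadm c hc
  have h3 : 1 ≤ N ^ A := Nat.one_le_pow _ _ hN1
  obtain ⟨H, hH, hHm, T, hT, hmem⟩ := hN (fun _ => 1) d (fun i => ⟨h3, hd i⟩) (fun p hp => by
      obtain ⟨n, hn⟩ := hadm p hp
      exact ⟨n, by simpa using hn⟩) c (by simpa using hc)
  refine ⟨H, hH, hHm, T, hT, fun x hx => ?_⟩
  obtain ⟨g1, g2, g3, g4⟩ := hmem x hx
  refine ⟨g1, g2, fun s hs => ?_, fun y hy hyH hyS => g4 y hy hyH (fun s hs _ i => ?_)⟩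
  · obtain ⟨k1, k2, k3⟩ := g3 s hs
    refine ⟨k1, k2, fun i => ?_⟩
    have e0 := k3 i
    simp only [one_mul] at e0
    exact e0
  · have k1 := hyS s hs i
    simp only [one_mul]
    exact fun h => k1 h.symm

end Pool.Agent.Results.MP_485179_nt.PrimeStrings
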