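import Pool.Agent.R490.Tq

set_option autoImplicit false

/-!
# Rough tuples in progressions: the law of the spacings, uniformly in the shifts and in the modulus
-/

namespace Pool.Agent.Results.MP_485179_nt.SpacingLaw

open Finset Filter

/-- For every prime `p` the set `H` misses a residue class modulo `p`: some `m` makes all `m + h`, `h ∈ H`, prime
to `p`. -/
def Admissible (H : Finset ℕ) : Prop := ∀ p : ℕ, p.Prime → ∃ m : ℕ, ∀ h ∈ H, ¬ p ∣ m + h

/-- No `q m + a + h`, `h ∈ H`, has a prime factor `≤ y`. -/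
def Rough (H : Finset ℕ) (q a y m : ℕ) : Prop := ∀ p : ℕ, p.Prime → p ≤ y → ∀ h ∈ H, ¬ p ∣ q * m + a + h

/-- `0` if `p ∣ q`, otherwise the number of the residue classes modulo `p` which meet `H`. -/
def nu (H : Finset ℕ) (q p : ℕ) : ℕ := if p ∣ q then 0 else (H.image (fun h => h % p)).card

/-- The product of `1 - nu(p) / p` over the primes `p ≤ y`, the density of the `m` with `Rough H q a y m`. -/
noncomputable def V (H : Finset ℕ) (q y : ℕ) : ℝ :=
  ∏ p ∈ (Finset.range (y + 1)).filter Nat.Prime, (1 - (nu H q p : ℝ) / p)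

open Classical in
/-- The number of the `n` in `(u, u + Y]` with `Rough H q a y n` for which fewer than `l` of the `T` integers
before `n` have this property, that is, for which the distance from `n` to the `l`-th preceding such integer is
larger than `T`. -/
noncomputable def D (H : Finset ℕ) (q a y l T u Y : ℕ) : ℕ :=
  ((Ioc u (u + Y)).filter (fun n => Rough H q a y n ∧
    ((Ico (n - T) n).filter (fun m => Rough H q a y m)).card < l)).card

open Classical in
/-- **The law of the spacings, uniformly.** Let `A` and `θ > 0`. For all `l0`, `x0` and `ε > 0` there is `r0` such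
that for every `r ≥ r0`, all large `X`, with `y = X ^ (1 / r)`: for ALL admissible sets `H` of `k` shifts up to `X ^ A` (in the question up to a power of `log X`),
ALL `q, a ≤ X ^ A` such that `q` is prime to all `a + h` and divides no difference of two different shifts, and
ALL intervals `(u, u + Y]` with `Y ≥ X ^ θ`, among the `m` for which no `q m + a + h` has a prime factor `≤ y`,
the distances to the `l`-th preceding one have, in units `1 / V` and up to `ε`, the distribution which belongs
to a Poisson process. -/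
theorem result (k A : ℕ) (hk : 2 ≤ k) (θ : ℝ) (hθ : 0 < θ) (l0 : ℕ) (x0 ε : ℝ) (hε : 0 < ε) :
    ∃ r0 : ℕ, ∀ r : ℕ, r0 ≤ r → ∀ᶠ X : ℕ in atTop, ∀ y : ℕ, y = ⌊(X : ℝ) ^ (1 / (r : ℝ))⌋₊ →
      ∀ H : Finset ℕ, H.card = k → (∀ h ∈ H, h ≤ X ^ A) →
      Admissible H →
      ∀ q a : ℕ, 1 ≤ q → q ≤ X ^ A → a ≤ X ^ A → (∀ h ∈ H, Nat.Coprime q (a + h)) →
      (∀ h ∈ H, ∀ h' ∈ H, h' < h → ¬ q ∣ h - h') →
      ∀ u Y : ℕ, (X : ℝ) ^ θ ≤ Y → ∀ l T : ℕ, (l ≤ l0 ∨ T * V H q y ≤ x0) →
        |(D H q a y l T u Y : ℝ) - Y * V H q y *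
            ∑ j ∈ range l, Real.exp (-(T * V H q y)) * (T * V H q y) ^ j / j.factorial| ≤
          ε * (Y * V H q y) := by
  obtain ⟨r0, h0⟩ := Pool.Agent.R490.Tq.tgap k A hk θ hθ l0 x0 ε hε
  refine ⟨r0, fun r hr => ?_⟩
  filter_upwards [h0 r hr] with X hX
  intro y hy H hH hHX hadm
  exact hX y hy H hH hHX hadm

end Pool.Agent.Results.MP_485179_nt.SpacingLaw
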